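import Mathlib
import Pool.Agent.Helper50.PR.Defs

/-!
# PR-13: pinning the Pell number `C`
-/

open Finset

namespace Pool.Agent.Helper50.PR

private lemma yn_lower {g : ℕ} (g1 : 1 < g) (j : ℕ) :
    (2 * g - 1) ^ j ≤ Pell.yn g1 (j + 1) := by
  induction j with
  | zero => simp
  | succ j ih =>
    have h1 := Pell.yn_succ_succ g1 j
    have h2 : Pell.yn g1 j ≤ Pell.yn g1 (j + 1) := (Pell.strictMono_y g1).monotone (Nat.le_succ j)
    have h3 : (2 * g - 1) * Pell.yn g1 (j + 1) + Pell.yn g1 (j + 1) = 2 * g * Pell.yn g1 (j + 1) := by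
      have : 2 * g = (2 * g - 1) + 1 := by omega
      conv_rhs => rw [this]
      ring
    have h4 : (2 * g - 1) * Pell.yn g1 (j + 1) ≤ Pell.yn g1 (j + 2) := by
      omega
    calc (2 * g - 1) ^ (j + 1) = (2 * g - 1) * (2 * g - 1) ^ j := by ring
      _ ≤ (2 * g - 1) * Pell.yn g1 (j + 1) := Nat.mul_le_mul_left _ ih
      _ ≤ Pell.yn g1 (j + 2) := h4

private lemma yn_strong {g : ℕ} (g1 : 1 < g) (j : ℕ) :
    (2 * (g : ℤ) - 2) ∣ (Pell.yn g1 j : ℤ) - j ∧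
      (2 * (g : ℤ) - 2) ∣ (Pell.yn g1 (j + 1) : ℤ) - (j + 1) := by
  induction j with
  | zero => simp
  | succ j ih =>
    refine ⟨by simpa using ih.2, ?_⟩
    have h1 := Pell.yn_succ_succ g1 j
    have h2 : (Pell.yn g1 (j + 2) : ℤ) = 2 * g * Pell.yn g1 (j + 1) - Pell.yn g1 j := by
      have : (Pell.yn g1 (j + 2) : ℤ) + Pell.yn g1 j = 2 * g * Pell.yn g1 (j + 1) := by
        exact_mod_cast h1
      linarith
    obtain ⟨u, hu⟩ := ih.1
    obtain ⟨v, hv⟩ := ih.2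
    rw [show j + 1 + 1 = j + 2 from rfl, h2]
    refine ⟨2 * v + (2 * g - 2) * v - u + (j + 1), ?_⟩
    have e1 : (Pell.yn g1 (j + 1) : ℤ) = (j + 1) + (2 * g - 2) * v := by linarith
    have e2 : (Pell.yn g1 j : ℤ) = j + (2 * g - 2) * u := by linarith
    rw [e1, e2]
    push_cast
    ring

private lemma even_G (Q : ℤ) : ∃ g : ℤ, Q ^ 3 - 3 * Q = 2 * g := by
  rcases Int.even_or_odd' Q with ⟨k, hk | hk⟩
  · exact ⟨4 * k ^ 3 - 3 * k, by rw [hk]; ring⟩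
  · exact ⟨4 * k ^ 3 + 6 * k ^ 2 - 1, by rw [hk]; ring⟩

theorem pin {n A Q c : ℕ} (hn : 3 ≤ n) (hA : 10 * n ^ 2 ≤ A) (hQ : A ≤ Q) {G C : ℤ}
    (hG : G = (Q : ℤ) ^ 3 - 3 * Q) (hC : C = n + 1 + c * (G - 2))
    (hsq : IsSquare ((G ^ 2 - 4) * C ^ 2 + 4)) (hup : C ≤ (A : ℤ) ^ (3 * n ^ 2 + 1)) :
    ∃ (g : ℕ) (g1 : 1 < g), G = 2 * g ∧ C = Pell.yn g1 (n + 1) := by
  obtain ⟨g0, hg0⟩ := even_G (Q : ℤ)
  have hA90 : (90 : ℤ) ≤ A := by
    have : 90 ≤ A := by nlinarith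
    exact_mod_cast this
  have hQA : (A : ℤ) ≤ Q := by exact_mod_cast hQ
  have hAn : 10 * (n : ℤ) ^ 2 ≤ A := by exact_mod_cast hA
  have hn3 : (3 : ℤ) ≤ n := by exact_mod_cast hn
  -- `2 g0 = Q^3 - 3 Q` is large
  have hbig : 100 * (Q : ℤ) ≤ 2 * g0 := by
    rw [← hg0]
    have : (103 : ℤ) ≤ (Q : ℤ) ^ 2 := by nlinarith
    nlinarith
  have hg0pos : 0 ≤ g0 := by nlinarith
  obtain ⟨g, rfl⟩ := Int.eq_ofNat_of_zero_le hg0pos
  have hgQ : 50 * (Q : ℤ) ≤ g := by linarith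
  have g1 : 1 < g := by
    have : (1 : ℤ) < g := by linarith
    exact_mod_cast this
  have hG2 : G = 2 * g := by rw [hG, hg0]
  refine ⟨g, g1, hG2, ?_⟩
  -- Pell
  have hCpos : 0 < C := by
    rw [hC]
    have : (0 : ℤ) ≤ c * (G - 2) := mul_nonneg (by positivity) (by rw [hG2]; linarith)
    linarith
  obtain ⟨s, hs⟩ := hsq
  have hs2 : 2 ∣ s := by
    have h2 : (2 : ℤ) ∣ s * s := by
      rw [← hs, hG2]
      exact ⟨(2 * g ^ 2 - 2) * C ^ 2 + 2, by ring⟩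
    rcases Int.prime_two.dvd_or_dvd h2 with h | h <;> exact h
  obtain ⟨t, ht⟩ := hs2
  have hpell : t ^ 2 = ((g : ℤ) ^ 2 - 1) * C ^ 2 + 1 := by
    have : 4 * t ^ 2 = 4 * (((g : ℤ) ^ 2 - 1) * C ^ 2 + 1) := by
      have h1 : (2 * t) * (2 * t) = ((2 * (g : ℤ)) ^ 2 - 4) * C ^ 2 + 4 := by
        rw [← ht, ← hs, hG2]
      linarith
    linarith
  obtain ⟨C', hC'⟩ := Int.eq_ofNat_of_zero_le hCpos.le
  have hx : ∃ x : ℕ, (x : ℤ) ^ 2 = t ^ 2 := ⟨t.natAbs, by simp⟩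
  obtain ⟨x, hx⟩ := hx
  have hnat : x * x - (g * g - 1) * C' * C' = 1 := by
    have hz : (x : ℤ) * x = ((g : ℤ) * g - 1) * C' * C' + 1 := by
      have : (x : ℤ) ^ 2 = ((g : ℤ) ^ 2 - 1) * (C' : ℤ) ^ 2 + 1 := by
        rw [hx, hpell, hC']
      linarith
    have hd : ((g * g - 1 : ℕ) : ℤ) = (g : ℤ) * g - 1 := by
      have : 1 ≤ g * g := by nlinarith
      push_cast [Nat.cast_sub this]
      try ring
    have : x * x = (g * g - 1) * C' * C' + 1 := by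
      have : ((x * x : ℕ) : ℤ) = (((g * g - 1) * C' * C' + 1 : ℕ) : ℤ) := by
        push_cast
        rw [hd]
        exact hz
      exact_mod_cast this
    omega
  obtain ⟨j, -, hj⟩ := Pell.eq_pell g1 hnat
  have hCj : C = Pell.yn g1 j := by
    rw [hC', hj]
  -- congruence
  have hmod : (2 * (g : ℤ) - 2) ∣ ((n : ℤ) + 1) - j := by
    have h1 := (yn_strong g1 j).1
    rw [← hCj] at h1
    have h2 : (2 * (g : ℤ) - 2) ∣ C - (n + 1) := by
      rw [hC, hG2]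
      exact ⟨c, by ring⟩
    have := dvd_sub h1 h2
    have e : C - j - (C - (n + 1)) = ((n : ℤ) + 1) - j := by ring
    rwa [e] at this
  have hgn : 10 * (n : ℤ) ^ 2 * 50 ≤ g := by
    nlinarith
  have hfin : j = n + 1 := by
    by_contra hne
    obtain ⟨u, hu⟩ := hmod
    have hu0 : u ≠ 0 := by
      rintro rfl
      apply hne
      have : (j : ℤ) = n + 1 := by linarith
      exact_mod_cast this
    have hgpos : (0 : ℤ) < 2 * g - 2 := by
      have : (1 : ℤ) < g := by exact_mod_cast g1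
      linarith
    rcases lt_or_gt_of_ne hu0 with hneg | hpos
    · -- j is big
      have hu1 : u ≤ -1 := by omega
      have hjbig : (n : ℤ) + 1 + (2 * g - 2) ≤ j := by nlinarith
      have hjn : 3 * n ^ 2 + 3 ≤ j := by
        have : (3 * (n : ℤ) ^ 2 + 3) ≤ j := by nlinarith
        exact_mod_cast this
      have hlow := yn_lower g1 (j - 1)
      have hj1 : j - 1 + 1 = j := by omega
      rw [hj1] at hlow
      have hA' : A ≤ 2 * g - 1 := by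
        have : (A : ℤ) ≤ 2 * g - 1 := by linarith
        omega
      have h1 : A ^ (3 * n ^ 2 + 1) < A ^ (j - 1) := by
        apply Nat.pow_lt_pow_right
        · have : (1 : ℤ) < A := by linarith
          exact_mod_cast this
        · omega
      have h2 : A ^ (j - 1) ≤ (2 * g - 1) ^ (j - 1) := Nat.pow_le_pow_left hA' _
      have h3 : A ^ (3 * n ^ 2 + 1) < Pell.yn g1 j := by omega
      rw [hCj] at hup
      have h4 : Pell.yn g1 j ≤ A ^ (3 * n ^ 2 + 1) := by exact_mod_cast hup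
      omega
    · have hu1 : 1 ≤ u := by omega
      have : (2 * (g : ℤ) - 2) ≤ n + 1 := by
        have hj0 : (0 : ℤ) ≤ j := by positivity
        nlinarith
      nlinarith
  rw [hCj, hfin]

theorem pin_complete {n Q : ℕ} (hQ : 3 ≤ Q) : ∃ (g : ℕ) (g1 : 1 < g) (c : ℕ),
    (Q : ℤ) ^ 3 - 3 * Q = 2 * g ∧
    (Pell.yn g1 (n + 1) : ℤ) = n + 1 + c * ((Q : ℤ) ^ 3 - 3 * Q - 2) ∧
    IsSquare ((((Q : ℤ) ^ 3 - 3 * Q) ^ 2 - 4) * (Pell.yn g1 (n + 1) : ℤ) ^ 2 + 4) := by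
  obtain ⟨g0, hg0⟩ := even_G (Q : ℤ)
  have hQ3 : (3 : ℤ) ≤ Q := by exact_mod_cast hQ
  have hbig : 6 * (Q : ℤ) ≤ 2 * g0 := by
    rw [← hg0]
    have : (9 : ℤ) ≤ (Q : ℤ) ^ 2 := by nlinarith
    nlinarith
  have hg0pos : 0 ≤ g0 := by linarith
  obtain ⟨g, rfl⟩ := Int.eq_ofNat_of_zero_le hg0pos
  have g1 : 1 < g := by
    have : (1 : ℤ) < g := by
      have := hbig
      push_cast at this
      linarith
    exact_mod_cast this
  have hgpos : (0 : ℤ) < 2 * g - 2 := by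
    have : (1 : ℤ) < g := by exact_mod_cast g1
    linarith
  obtain ⟨c, hc⟩ := (yn_strong g1 n).2
  have hge : ((n : ℤ) + 1) ≤ Pell.yn g1 (n + 1) := by
    exact_mod_cast Pell.yn_ge_n g1 (n + 1)
  have hc0 : 0 ≤ c := by
    by_contra hcn
    push Not at hcn
    have : (2 * (g : ℤ) - 2) * c < 0 := mul_neg_of_pos_of_neg hgpos hcn
    linarith
  obtain ⟨c', rfl⟩ := Int.eq_ofNat_of_zero_le hc0
  refine ⟨g, g1, c', hg0, ?_, ?_⟩
  · rw [hg0]
    push_cast at hc ⊢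
    linarith
  · rw [hg0]
    refine ⟨2 * Pell.xn g1 (n + 1), ?_⟩
    have hp : (Pell.xn g1 (n + 1) : ℤ) * Pell.xn g1 (n + 1)
        = ((g : ℤ) * g - 1) * Pell.yn g1 (n + 1) * Pell.yn g1 (n + 1) + 1 := by
      have h1 : Pell.xn g1 (n + 1) * Pell.xn g1 (n + 1)
          - (g * g - 1) * Pell.yn g1 (n + 1) * Pell.yn g1 (n + 1) = 1 :=
        Pell.pell_eq g1 (n + 1)
      have hy : (g * g - 1) * Pell.yn g1 (n + 1) * Pell.yn g1 (n + 1)
          ≤ Pell.xn g1 (n + 1) * Pell.xn g1 (n + 1) := by omega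
      have h2 : Pell.xn g1 (n + 1) * Pell.xn g1 (n + 1)
          = (g * g - 1) * Pell.yn g1 (n + 1) * Pell.yn g1 (n + 1) + 1 := by omega
      have hd : ((g * g - 1 : ℕ) : ℤ) = (g : ℤ) * g - 1 := by
        have : 1 ≤ g * g := by nlinarith
        push_cast [Nat.cast_sub this]
        try ring
      rw [← hd]
      exact_mod_cast h2
    push_cast
    linear_combination (-4) * hp

theorem C_upper {n A Z Q C : ℤ} (hn : 3 ≤ n) (hA : 100 * n ≤ A) (hQ : A ≤ Q) (hZ : 1 ≤ Z)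
    (_hC : 0 ≤ C) (h : 0 < qD n A Z Q C) : C ≤ A * Z ^ 3 := by
  by_contra hcon
  push Not at hcon
  have hA300 : 300 ≤ A := by linarith
  have hQ300 : 300 ≤ Q := by linarith
  have hZ3 : 1 ≤ Z ^ 3 := one_le_pow₀ hZ
  have hA3 : 0 < A ^ 3 := by positivity
  have h1 : (A + n) ^ 3 ≤ 8 * A ^ 3 := by
    have : (A + n) ^ 3 ≤ (2 * A) ^ 3 := by
      apply pow_le_pow_left₀ (by linarith)
      linarith
    calc (A + n) ^ 3 ≤ (2 * A) ^ 3 := this
      _ = 8 * A ^ 3 := by ring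
  have h2 : Q * Z ^ 3 * (A + n) ^ 3 ≤ Q * Z ^ 3 * (8 * A ^ 3) := by
    apply mul_le_mul_of_nonneg_left h1
    positivity
  have h3 : A * Z ^ 3 * ((Q - 3) * A ^ 3) ≤ C * ((Q - 3) * A ^ 3) := by
    apply mul_le_mul_of_nonneg_right hcon.le
    apply mul_nonneg (by linarith) hA3.le
  have h4 : Z ^ 3 * A ^ 3 ≤ C * (Q - 3) * A ^ 3 - Q * Z ^ 3 * (A + n) ^ 3 := by
    have h5 : 1 ≤ A * (Q - 3) - 8 * Q := by nlinarith
    have h6 : Z ^ 3 * A ^ 3 * 1 ≤ Z ^ 3 * A ^ 3 * (A * (Q - 3) - 8 * Q) := by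
      apply mul_le_mul_of_nonneg_left h5
      positivity
    nlinarith [h6, h2, h3]
  have h7 : (Z ^ 3 * A ^ 3) ^ 2 ≤ (C * (Q - 3) * A ^ 3 - Q * Z ^ 3 * (A + n) ^ 3) ^ 2 := by
    apply pow_le_pow_left₀ (by positivity) h4
  have h8 : (Z ^ 3 * A ^ 3) ^ 2 ≤ A * (C * (Q - 3) * A ^ 3 - Q * Z ^ 3 * (A + n) ^ 3) ^ 2 := by
    have h9 : 0 ≤ (C * (Q - 3) * A ^ 3 - Q * Z ^ 3 * (A + n) ^ 3) ^ 2 := sq_nonneg _
    nlinarith
  unfold qD at h
  nlinarith [h, h8]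

end Pool.Agent.Helper50.PR
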